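import Pool.Agent.W297.LP.Stm

/-! Project LP (MP_6505eb_co), part DICH4. -/

set_option autoImplicit false

open Finset
open Pool.Agent.W297.LP

namespace Pool.Agent.W135.LP

theorem mu_four : mu 4 = 1 / 3 := by unfold mu; norm_num

theorem co_co {V : Type} (W : V → V → ℝ) : co (co W) = W := by
  funext x y; unfold co; ring

theorem ker_co {V : Type} {W : V → V → ℝ} (hW : Ker W) : Ker (co W) := by
  refine ⟨fun x y => ?_, fun x y => ?_⟩
  · unfold co; rw [hW.symm x y]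
  · unfold co
    rcases hW.zo x y with h | h
    · right; rw [h]; ring
    · left; rw [h]; ring

theorem ker_nonneg {V : Type} {W : V → V → ℝ} (hW : Ker W) (x y : V) : 0 ≤ W x y := by
  rcases hW.zo x y with h | h <;> rw [h] <;> norm_num

theorem ker_le_one {V : Type} {W : V → V → ℝ} (hW : Ker W) (x y : V) : W x y ≤ 1 := by
  rcases hW.zo x y with h | h <;> rw [h] <;> norm_num

/-- first numerical step -/
theorem num1 {h e b r o M1 M2 E F rho : ℝ} (hf : Facts 4 h b r o M1 M2 E F rho)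
    (he : e ≤ 1 / 10000) (hh : h ≤ 1 / 10000)
    (h2 : 3 / 5 * M1 + 3 / 5 * M2 ≤ 2235 / 10000 + e) (hrb : r ≤ b) : r + o ≤ 14 / 100 := by
  obtain ⟨b0, r0, o0, le1, ge1, E0, F0, M10, M20, tot, EF, m1, m2, hrho⟩ := hf
  rw [mu_four] at tot
  have hT : o + 1 / 3 * (b ^ 2 + r ^ 2) + b * r ≤ 3725 / 10000 + 5 / 3 * e + h := by linarith
  have hi : 0 ≤ o * ((1 - b) - (r + o + r) / 3) := by
    apply mul_nonneg o0
    linarith
  have hb2 : b ^ 2 / 3 + b * (r + o) + (r + o) ^ 2 / 3 ≤ 3725 / 10000 + 5 / 3 * e + h := by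
    nlinarith
  set y := r + o with hy
  obtain ⟨w, hw⟩ : ∃ w, w = 1 - b - y := ⟨_, rfl⟩
  have hw0 : 0 ≤ w := by rw [hw, hy]; linarith
  have hwh : w ≤ h := by rw [hw, hy]; linarith
  have hbw : b = 1 - y - w := by rw [hw]; ring
  have hy0 : 0 ≤ y := by rw [hy]; linarith
  have hy1 : y ≤ 1 := by rw [hy]; linarith
  have h3 : 1 / 3 + (y - y ^ 2) / 3 - w ≤ b ^ 2 / 3 + b * y + y ^ 2 / 3 := by
    rw [hbw]
    nlinarith [mul_nonneg hw0 hy0, mul_nonneg hw0 (sub_nonneg.2 hy1), sq_nonneg w]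
  have h4 : y - y ^ 2 ≤ 1175 / 10000 + 5 * e + 6 * h := by linarith
  by_contra hcon
  push Not at hcon
  have h5 : 0 < y - 14 / 100 := by linarith
  have h6 : (y - 14 / 100) * (86 / 100 - y) < 0 := by nlinarith
  have h7 : 86 / 100 - y < 0 := by
    by_contra h8
    push Not at h8
    exact absurd (mul_nonneg h5.le h8) (not_le.2 h6)
  have h8 : b ≤ 14 / 100 := by linarith
  have h9 : o ≤ 3725 / 10000 + 5 / 3 * e + h := by nlinarith [mul_nonneg b0 r0]
  have h10 : y = r + o := hy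
  linarith

/-- second numerical step -/
theorem num2 {h e b r o M1 M2 E F rho : ℝ} (hf : Facts 4 h b r o M1 M2 E F rho)
    (h3 : M1 + 3 / 8 * M2 ≤ 1 / 3 + e) (he0 : 0 ≤ e) (hh0 : 0 ≤ h) :
    8 / 15 * (r + o) - 16 / 15 * (r + o) ^ 2 - 8 / 5 * (e + 8 / 3 * h) ≤ E ∧
    rho ≤ 1 / 3 + 4 / 15 * (r + o) + 22 / 15 * (r + o) ^ 2 + 4 * e + 8 * h := by
  obtain ⟨b0, r0, o0, le1, ge1, E0, F0, M10, M20, tot, EF, m1, m2, hrho⟩ := hf
  rw [mu_four] at m1
  set y := r + o with hy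
  obtain ⟨w, hw⟩ : ∃ w, w = 1 - b - y := ⟨_, rfl⟩
  have hw0 : 0 ≤ w := by rw [hw, hy]; linarith
  have hwh : w ≤ h := by rw [hw, hy]; linarith
  have hbw : b = 1 - y - w := by rw [hw]; ring
  have hy0 : 0 ≤ y := by rw [hy]; linarith
  have hy1 : y ≤ 1 := by rw [hy]; linarith
  have h4 : 1 / 3 + y / 3 - 2 / 3 * y ^ 2 - 5 / 3 * w ≤ 1 / 3 * b ^ 2 + b * y := by
    rw [hbw]
    nlinarith [mul_nonneg hw0 hy0, mul_nonneg hw0 (sub_nonneg.2 hy1), sq_nonneg w]
  have h5 : 5 / 8 * E ≥ y / 3 - 2 / 3 * y ^ 2 - e - 8 / 3 * h := by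
    linarith
  have hA : 8 / 15 * y - 16 / 15 * y ^ 2 - 8 / 5 * (e + 8 / 3 * h) ≤ E := by linarith
  refine ⟨hA, ?_⟩
  have h6 : b * y ≤ y - y ^ 2 := by
    have : b ≤ 1 - y := by linarith
    nlinarith
  linarith

/-- third numerical step -/
theorem num3 {δ h e h2 y z rho E : ℝ} (he : e ≤ 1 / 10000) (hh : h ≤ 1 / 10000)
    (heδ : e ≤ δ / 10000) (hhδ : h ≤ δ / 10000) (hh2 : h2 ≤ 1 / 1000) (hδ : 0 < δ) (hyδ : δ < y)
    (hy : y ≤ 14 / 100) (hz : 1 / 3 ≤ z)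
    (hA : 8 / 15 * y - 16 / 15 * y ^ 2 - 8 / 5 * (e + 8 / 3 * h) ≤ E)
    (hB : rho ≤ 1 / 3 + 4 / 15 * y + 22 / 15 * y ^ 2 + 4 * e + 8 * h)
    (hE : E ≤ y * ((1 + e) * (1 / 3) + (1 - y - z)))
    (hr : 1 - rho ≤ 2 / 3 * z ^ 2 + h2 + 2 * ((1 + e) * (1 / 3)) * (1 - z)) (he0 : 0 ≤ e) : False := by
  have hy0 : 0 < y := hδ.trans hyδ
  have h1 : y * z ≤ y * (4 / 5 + y / 15 + e / 3) + 8 / 5 * (e + 8 / 3 * h) := by nlinarith
  have h2' : 8 / 5 * (e + 8 / 3 * h) ≤ y * (1 / 1000) := by linarith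
  have h3 : y * z ≤ y * (4 / 5 + y / 15 + e / 3 + 1 / 1000) := by linarith
  have h4 : z ≤ 4 / 5 + y / 15 + e / 3 + 1 / 1000 := le_of_mul_le_mul_left h3 hy0
  have h5 : z ≤ 811 / 1000 := by linarith
  have h6 : 0 ≤ (z - 1 / 3) * (811 / 1000 - z) := mul_nonneg (by linarith) (by linarith)
  have h7 : (2 : ℝ) / 3 * (z - z ^ 2) ≤ rho - 1 / 3 + 2 / 3 * e + h2 := by
    nlinarith [mul_nonneg he0 (show 0 ≤ z by linarith)]
  have h8 : y ^ 2 ≤ (14 / 100) ^ 2 := pow_le_pow_left₀ hy0.le hy 2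
  nlinarith

theorem ms_compl {V : Type} [Fintype V] [DecidableEq V] (D : Finset V) (hn : 0 < Fintype.card V) :
    ms Dᶜ = 1 - ms D := by
  have hn' : (0 : ℝ) < Fintype.card V := by exact_mod_cast hn
  have h : ((Dᶜ).card : ℝ) + D.card = Fintype.card V := by
    exact_mod_cast card_compl_add_card D
  unfold ms
  field_simp
  linarith

theorem ms_split {V : Type} [Fintype V] [DecidableEq V] (D1 D2 : Finset V) :
    ms D2ᶜ = ms (D1 \ D2) + ms (D1 ∪ D2)ᶜ := by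
  unfold ms
  rw [← add_div]
  congr 1
  have hd : Disjoint (D1 \ D2) (D1 ∪ D2)ᶜ := by
    rw [Finset.disjoint_left]
    intro x hx hx2
    simp only [mem_sdiff, mem_compl, mem_union] at hx hx2
    exact hx2 (Or.inl hx.1)
  have he : D2ᶜ = (D1 \ D2) ∪ (D1 ∪ D2)ᶜ := by
    ext x
    simp only [mem_compl, mem_union, mem_sdiff]
    tauto
  rw [he, card_union_of_disjoint hd]
  push_cast
  ring

theorem ee_co_univ {V : Type} [Fintype V] (W : V → V → ℝ) (hn : 0 < Fintype.card V) :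
    ee (co W) univ univ = 1 - ee W univ univ := by
  have hn' : (0 : ℝ) < Fintype.card V := by exact_mod_cast hn
  unfold ee co
  simp only [sum_sub_distrib, sum_const, card_univ, nsmul_eq_mul, mul_one]
  field_simp

theorem ee_le_sq {V : Type} [Fintype V] {W : V → V → ℝ} (hW : Ker W) (S : Finset V)
    (hn : 0 < Fintype.card V) : ee W S S ≤ ms S ^ 2 := by
  have hn' : (0 : ℝ) < Fintype.card V := by exact_mod_cast hn
  unfold ee ms
  rw [div_pow]
  gcongr
  calc ∑ x ∈ S, ∑ y ∈ S, W x y ≤ ∑ x ∈ S, ∑ y ∈ S, (1 : ℝ) :=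
        sum_le_sum fun x _ => sum_le_sum fun y _ => ker_le_one hW x y
    _ = (S.card : ℝ) ^ 2 := by simp; ring

theorem half (hFacts : SFacts) (hNum : Pool.Agent.W297.LP.SNum) (hElim : SElim) (hTur : STur) (hSym : SSym) (δ : ℝ)
    (hδ : 0 < δ) : ∃ (e : ℝ) (n0 : ℕ), 0 < e ∧
    ∀ (V : Type) [Fintype V] [DecidableEq V] (W : V → V → ℝ) (D1 D2 : Finset V), Ker W →
      0 < Fintype.card V → n0 ≤ Fintype.card V → Ext 4 e W D1 D2 →
      ms (D1 \ D2) ≤ ms (D2 \ D1) → 1 - δ ≤ ms D2 := by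
  set h : ℝ := min (1 / 10000) (δ / 10000) with hh
  have hh0 : 0 < h := lt_min (by norm_num) (by positivity)
  obtain ⟨e1, he1, hF⟩ := hFacts 4 le_rfl h hh0
  obtain ⟨c, hc, hT⟩ := hTur 4 le_rfl (1 / 1000) (by norm_num)
  set e : ℝ := min (min e1 c) (min (1 / 10000) (δ / 10000)) with hedef
  have he0 : 0 < e := lt_min (lt_min he1 hc) (lt_min (by norm_num) (by positivity))
  have hee1 : e ≤ e1 := (min_le_left _ _).trans (min_le_left _ _)
  have hec : e ≤ c := (min_le_left _ _).trans (min_le_right _ _)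
  have he4 : e ≤ 1 / 10000 := (min_le_right _ _).trans (min_le_left _ _)
  have heδ : e ≤ δ / 10000 := (min_le_right _ _).trans (min_le_right _ _)
  refine ⟨e, 1000, he0, ?_⟩
  intro V _ _ W D1 D2 hW hn hn0 hext hbr
  have hn' : (0 : ℝ) < Fintype.card V := by exact_mod_cast hn
  have hn0' : (1000 : ℝ) ≤ Fintype.card V := by exact_mod_cast hn0
  set n : ℝ := (Fintype.card V : ℝ) with hndef
  have hfacts := hF V W D1 D2 hW hn (hSym.2 4 e e1 V W D1 D2 le_rfl hee1 hext)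
  -- the certificates
  have hN2 : Cert2 (mu 4) (3 / 5) (3 / 5) (fun _ => -(2235 / 10000)) := by
    rw [mu_four]; exact hNum.2.1
  have hN3 : Cert2 (mu 4) 1 (3 / 8) (fun _ => -(1 / 3)) := by
    rw [mu_four]; exact hNum.2.2.1
  have ht2 := hext.two _ _ _ hN2
  have ht3 := hext.two _ _ _ hN3
  simp only [sum_const, card_univ, nsmul_eq_mul] at ht2 ht3
  set M1 : ℝ := (∑ x ∈ D1ᶜ, dg W x) / n with hM1
  set M2 : ℝ := (∑ x ∈ D2ᶜ, dg (co W) x) / n with hM2
  have hM1' : ∑ x ∈ D1ᶜ, dg W x = M1 * n := by rw [hM1]; field_simp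
  have hM2' : ∑ x ∈ D2ᶜ, dg (co W) x = M2 * n := by rw [hM2]; field_simp
  rw [hM1', hM2'] at ht2 ht3
  have hc2 : 3 / 5 * M1 + 3 / 5 * M2 ≤ 2235 / 10000 + e := by
    have h1 : (3 / 5 * M1 + 3 / 5 * M2) * n ≤ (2235 / 10000 + e) * n := by
      have : (Fintype.card V : ℝ) = n := rfl
      nlinarith
    exact le_of_mul_le_mul_right h1 hn'
  have hc3 : M1 + 3 / 8 * M2 ≤ 1 / 3 + e := by
    have h1 : (M1 + 3 / 8 * M2) * n ≤ (1 / 3 + e) * n := by
      have : (Fintype.card V : ℝ) = n := rfl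
      nlinarith
    exact le_of_mul_le_mul_right h1 hn'
  have hy := num1 hfacts he4 (min_le_left _ _) hc2 hbr
  obtain ⟨hA, hB⟩ := num2 hfacts hc3 he0.le hh0.le
  rw [← ms_split D1 D2] at hy hA hB
  set y : ℝ := ms D2ᶜ with hydef
  have hyD2 : ms D2 = 1 - y := by rw [hydef, ms_compl D2 hn]; ring
  by_contra hcon
  push Not at hcon
  have hyδ : δ < y := by linarith
  -- elimination
  have hcoW := ker_co hW
  have hm0 : ⌈n / 3⌉₊ ≤ Fintype.card V := by
    rw [Nat.ceil_le]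
    have : (Fintype.card V : ℝ) = n := rfl
    linarith
  obtain ⟨S, hS1, hS2, hS3, hS4⟩ := hElim V (co W) hcoW ((1 + e) * (1 / 3)) (by positivity)
    ⌈n / 3⌉₊ hm0
  rw [ee_co_univ W hn] at hS4
  have hz : 1 / 3 ≤ ms S := by
    have h1 : n / 3 ≤ (S.card : ℝ) := (Nat.le_ceil _).trans (by exact_mod_cast hS1)
    unfold ms
    rw [le_div_iff₀ hn']
    linarith
  have hrho := hB
  have h14 : y ^ 2 ≤ (14 / 100) ^ 2 := pow_le_pow_left₀ (by linarith) hy 2
  have hh4 : h ≤ 1 / 10000 := min_le_left _ _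
  have hhδ : h ≤ δ / 10000 := min_le_right _ _
  rcases hS2 with hS2 | hS2
  · -- small set
    have hz2 : ms S ≤ 1 / 3 + 1 / 1000 := by
      have h1 : (S.card : ℝ) < n / 3 + 1 := by
        rw [hS2]; exact Nat.ceil_lt_add_one (by positivity)
      unfold ms
      rw [div_le_iff₀ hn']
      linarith
    have h1 := ee_le_sq hcoW S hn
    have h2 : ms S ^ 2 ≤ (1 / 3 + 1 / 1000) ^ 2 := pow_le_pow_left₀ (by linarith) hz2 2
    have h3 : 2 * ((1 + e) * (1 / 3)) * (1 - ms S) ≤ 2 * ((1 + e) * (1 / 3)) * (2 / 3) :=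
      mul_le_mul_of_nonneg_left (by linarith) (by positivity)
    linarith
  · -- core
    have hSD : S ⊆ D2 := hext.core2 S (fun x hx => by
      rw [mu_four]; exact hS2 x hx)
    have hcl : ((cl (co W) S 4).card : ℝ) ≤ c * (Fintype.card V : ℝ) ^ 4 := by
      have h1 : (cl (co W) S 4).card ≤ (cl (co W) D2 4).card := by
        apply card_le_card
        intro x hx
        unfold cl at hx ⊢
        simp only [mem_filter, mem_univ, true_and] at hx ⊢
        exact ⟨fun i => hSD (hx.1 i), hx.2⟩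
      calc ((cl (co W) S 4).card : ℝ) ≤ (cl (co W) D2 4).card := by exact_mod_cast h1
        _ ≤ e * (Fintype.card V : ℝ) ^ 4 := hext.c2
        _ ≤ c * (Fintype.card V : ℝ) ^ 4 := mul_le_mul_of_nonneg_right hec (by positivity)
    have hTS := hT V (co W) hcoW S hcl
    rw [mu_four] at hTS
    have hE : ee (co W) (D2 \ D1) D2ᶜ ≤ y * ((1 + e) * (1 / 3) + (1 - y - ms S)) := by
      have h1 : ∑ x ∈ D2 \ D1, ∑ v ∈ D2ᶜ, co W x v ≤ ∑ v ∈ D2ᶜ, ∑ x ∈ D2, co W v x := by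
        rw [sum_comm]
        refine sum_le_sum fun v _ => ?_
        calc ∑ x ∈ D2 \ D1, co W x v = ∑ x ∈ D2 \ D1, co W v x :=
              sum_congr rfl fun x _ => hcoW.symm x v
          _ ≤ ∑ x ∈ D2, co W v x :=
              sum_le_sum_of_subset_of_nonneg sdiff_subset fun x _ _ => ker_nonneg hcoW v x
      have h2 : ∀ v ∈ D2ᶜ, ∑ x ∈ D2, co W v x ≤
          ((1 + e) * (1 / 3)) * n + ((D2.card : ℝ) - S.card) := by
        intro v hv
        have hvS : v ∉ S := fun hvS => (mem_compl.1 hv) (hSD hvS)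
        have h3 := hS3 v hvS
        have h4 : ∑ x ∈ D2 \ S, co W v x ≤ ((D2 \ S).card : ℝ) := by
          calc ∑ x ∈ D2 \ S, co W v x ≤ ∑ x ∈ D2 \ S, (1 : ℝ) :=
                sum_le_sum fun x _ => ker_le_one hcoW v x
            _ = _ := by simp
        have h5 : ((D2 \ S).card : ℝ) = (D2.card : ℝ) - S.card := by
          rw [card_sdiff_of_subset hSD, Nat.cast_sub (card_le_card hSD)]
        rw [← sum_sdiff hSD]
        linarith
      have h3 : ∑ v ∈ D2ᶜ, ∑ x ∈ D2, co W v x ≤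
          (D2ᶜ.card : ℝ) * (((1 + e) * (1 / 3)) * n + ((D2.card : ℝ) - S.card)) := by
        refine (sum_le_sum h2).trans (le_of_eq ?_)
        rw [sum_const, nsmul_eq_mul]
      unfold ee
      rw [div_le_iff₀ (by positivity)]
      refine (h1.trans h3).trans (le_of_eq ?_)
      have e1 : (D2ᶜ.card : ℝ) = y * n := by
        rw [hydef]; unfold ms; rw [div_mul_cancel₀ _ hn'.ne']
      have e2 : (D2.card : ℝ) = (1 - y) * n := by
        rw [← hyD2]; unfold ms; rw [div_mul_cancel₀ _ hn'.ne']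
      have e3 : (S.card : ℝ) = ms S * n := by
        unfold ms; rw [div_mul_cancel₀ _ hn'.ne']
      rw [e1, e2, e3]
      ring
    refine num3 (δ := δ) (h := h) (e := e) (h2 := 1 / 1000) (y := y) (z := ms S)
      (rho := ee W univ univ) (E := ee (co W) (D2 \ D1) D2ᶜ) he4 hh4 heδ hhδ le_rfl hδ hyδ hy hz
      hA hB hE ?_ he0.le
    linarith

theorem dich4 : SFacts → Pool.Agent.W297.LP.SNum → SSym → SElim → STur → SDich4 := by
  intro hFacts hNum hSym hElim hTur δ hδ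
  obtain ⟨e, n0, he, H⟩ := half hFacts hNum hElim hTur hSym δ hδ
  refine ⟨e, n0, he, ?_⟩
  intro V _ _ W D1 D2 hW hn hn0 hext
  rcases le_total (ms (D1 \ D2)) (ms (D2 \ D1)) with h | h
  · left
    exact H V W D1 D2 hW hn hn0 hext h
  · right
    exact H V (co W) D2 D1 (ker_co hW) hn hn0 (hSym.1 4 e V W D1 D2 hW hext) h

end Pool.Agent.W135.LP
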